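import Mathlib
import Pool.Graph.R_pool_sql_team_22c7b01f.Results.MP_08c285_gt.Regular

set_option autoImplicit false

/-!
# Normality of the balleans `(G, [G]^{<l})` for all infinite cardinals `l ≤ |G|`

The ballean of a group `G` given by the subsets of cardinality less than `l` is normal if and only
if `l` is the cardinality of `G` and is regular.
-/

namespace Pool.Agent.Results.MP_08c285_gt.AllCardinals

open Set Cardinal

universe u

/-- The entourages of the ballean of `G` given by the subsets of cardinality less than `l`. -/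
def Ent {G : Type u} [Group G] (l : Cardinal.{u}) (E : Set (G × G)) : Prop :=
  ∃ A : Set G, #A < l ∧ 1 ∈ A ∧ A⁻¹ = A ∧ ∀ p ∈ E, ∃ a ∈ A, p.2 = p.1 * a

/-- `E[S]`. -/
def nb {G : Type u} (E : Set (G × G)) (S : Set G) : Set G := {y | ∃ x ∈ S, (x, y) ∈ E}

/-- Asymptotically disjoint sets: `E[P] ∩ E[Q]` has fewer than `l` elements for every `E`. -/
def AsDisj {G : Type u} [Group G] (l : Cardinal.{u}) (P Q : Set G) : Prop :=
  ∀ E, Ent l E → #(nb E P ∩ nb E Q : Set G) < l

/-- `U` is an asymptotic neighbourhood of `P`. -/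
def AsNhd {G : Type u} [Group G] (l : Cardinal.{u}) (U P : Set G) : Prop :=
  ∀ E, Ent l E → #(nb E P \ U : Set G) < l

/-- Normality of the ballean. -/
def Normal (G : Type u) [Group G] (l : Cardinal.{u}) : Prop :=
  ∀ P Q : Set G, AsDisj l P Q → ∃ U V, AsNhd l U P ∧ AsNhd l V Q ∧ AsDisj l U V

variable {G : Type u} [Group G]

open Pool.Agent.Results.MP_08c285_gt.Regular (rec' sub)

lemma asNhd_translate {l : Cardinal.{u}} (h0 : ℵ₀ ≤ l) {U P : Set G} (hU : AsNhd l U P) (g : G) :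
    #((· * g) '' P \ U : Set G) < l := by
  refine lt_of_le_of_lt (mk_le_mk_of_subset ?_)
    (hU {p | ∃ a ∈ ({1, g, g⁻¹} : Set G), p.2 = p.1 * a} ⟨{1, g, g⁻¹}, ?_, by simp, ?_,
      fun _ h => h⟩)
  · apply sdiff_subset_sdiff_left
    rintro _ ⟨p, hp, rfl⟩
    exact ⟨p, hp, g, by simp, rfl⟩
  · exact (Set.Finite.lt_aleph0 (by simp)).trans_le h0
  · ext z
    simp only [Set.mem_inv, Set.mem_insert_iff, Set.mem_singleton_iff, inv_eq_one, inv_inj]
    rw [inv_eq_iff_eq_inv]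
    tauto

/-- below the cardinality of the group there is no normality -/
theorem not_normal_of_lt (l : Cardinal.{u}) (h0 : ℵ₀ ≤ l) (h1 : l < #G) : ¬ Normal G l := by
  intro h
  have a1 : ℵ₀ < #G := h0.trans_lt h1
  have a0 : ℵ₀ ≤ #G := a1.le
  obtain ⟨y, hy⟩ := rec' a1 (fun _ => ∅) fun _ => by
    simpa using (aleph0_pos.trans a1)
  obtain ⟨e⟩ : Nonempty ((#G).ord.ToType ≃ (#G).ord.ToType × (#G).ord.ToType) :=
    Cardinal.eq.1 (by simp [mul_eq_self a0])
  have ii : ∀ t : (#G).ord.ToType, #(Iic t) < #G := fun t => by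
    rw [← Iio_insert]
    exact mk_insert_le.trans_lt (add_lt_of_lt a0 (mk_Iio_toType_ord_lt t) (one_lt_aleph0.trans a1))
  obtain ⟨x, hx⟩ := rec' a1 (fun t => (fun s => y (e s).1) '' Iic t ∪ (fun s => y (e s).2) '' Iic t)
    fun t => (mk_union_le _ _).trans_lt (add_lt_of_lt a0 (mk_image_le.trans_lt (ii t))
      (mk_image_le.trans_lt (ii t)))
  have inj : ∀ (z : (#G).ord.ToType → G) (c : _ → Set G),
      (∀ t, z t ∉ Subgroup.closure (c t ∪ z '' Iio t)) → Function.Injective z := fun z c hz =>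
    Function.Injective.of_lt_imp_ne fun s t l k => hz t (Subgroup.subset_closure (.inr ⟨s, l, k⟩))
  have iy := inj y _ hy
  have ix := inj x _ hx
  generalize hH : (fun t => Subgroup.closure (((fun s => y (e s).1) '' Iic t ∪
    (fun s => y (e s).2) '' Iic t) ∪ x '' Iio t)) = H
  have m0 : ∀ s t, s < t → x s ∈ H t := fun s t l =>
    hH ▸ Subgroup.subset_closure (.inr ⟨s, l, rfl⟩)
  have m1 : ∀ s t, s ≤ t → y (e s).1 ∈ H t := fun s t l =>
    hH ▸ Subgroup.subset_closure (.inl (.inl ⟨s, l, rfl⟩))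
  have m2 : ∀ s t, s ≤ t → y (e s).2 ∈ H t := fun s t l =>
    hH ▸ Subgroup.subset_closure (.inl (.inr ⟨s, l, rfl⟩))
  have n0 : ∀ t, x t ∉ H t := fun t => hH ▸ hx t
  let p := fun t => x t * (y (e t).2)⁻¹
  let q := fun t => x t * (y (e t).1)⁻¹
  have mp : ∀ s t, s < t → p s ∈ H t := fun s t l => mul_mem (m0 s t l) (inv_mem (m2 s t l.le))
  have mq : ∀ s t, s < t → q s ∈ H t := fun s t l => mul_mem (m0 s t l) (inv_mem (m1 s t l.le))
  have np : ∀ t, p t ∉ H t := fun t k => n0 t ((mul_mem_cancel_right (inv_mem (m2 t t le_rfl))).1 k)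
  have nq : ∀ t, q t ∉ H t := fun t k => n0 t ((mul_mem_cancel_right (inv_mem (m1 t t le_rfl))).1 k)
  have fy := sub (fun t => Subgroup.closure (∅ ∪ y '' Iio t)) (fun t => (y t)⁻¹) (fun t => (y t)⁻¹)
    (fun s t l => inv_mem (Subgroup.subset_closure (.inr ⟨s, l, rfl⟩)))
    (fun s t l => inv_mem (Subgroup.subset_closure (.inr ⟨s, l, rfl⟩)))
    fun t k => hy t (inv_mem_iff.1 k)
  let T := {t | (e t).1 ≠ (e t).2}
  have fin : ∀ g, (p '' T ∩ (· * g) '' (q '' T)).Finite := fun g => by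
    have f1 : {t | (e t).1 < (e t).2 ∧ (y (e t).2)⁻¹ = (y (e t).1)⁻¹ * g}.Finite :=
      .of_injOn (f := fun t => (e t).2) (fun t k => by exact ⟨_, k.1, k.2⟩) (fun s hs t ht k =>
        e.injective (Prod.ext (iy (by
          simpa using hs.2.symm.trans ((congrArg (fun j => (y j)⁻¹) k).trans ht.2))) k)) (fy g)
    have f2 : {t | (e t).2 < (e t).1 ∧ (y (e t).1)⁻¹ = (y (e t).2)⁻¹ * g⁻¹}.Finite :=
      .of_injOn (f := fun t => (e t).1) (fun t k => by exact ⟨_, k.1, k.2⟩) (fun s hs t ht k =>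
        e.injective (Prod.ext k (iy (by
          simpa using hs.2.symm.trans ((congrArg (fun j => (y j)⁻¹) k).trans ht.2))))) (fy g⁻¹)
    refine ((((sub H q p mq mp np g).union (f1.union f2)).image p).union
      (((sub H p q mp mq nq g⁻¹).image q).image (· * g))).subset ?_
    rintro _ ⟨⟨t, ht, rfl⟩, _, ⟨s, -, rfl⟩, k⟩
    rcases lt_trichotomy s t with l | rfl | l
    · exact .inl ⟨t, .inl ⟨s, l, k.symm⟩, rfl⟩
    · have k' : (y (e s).1)⁻¹ * g = (y (e s).2)⁻¹ := by simpa [p, q, mul_assoc] using k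
      exact .inl ⟨s, .inr ((lt_or_gt_of_ne ht).imp (fun l => ⟨l, k'.symm⟩)
        fun l => ⟨l, by simp [← k']⟩), rfl⟩
    · exact .inr ⟨_, ⟨s, ⟨t, l, by simp [← k]⟩, rfl⟩, k⟩
  obtain ⟨U, V, hU, hV, hUV⟩ := h (p '' T) (q '' T) fun E ⟨A, hA, _, _, hE⟩ => by
    have hsub : nb E (p '' T) ∩ nb E (q '' T) ⊆ ⋃ a : A × A,
        (· * a.1.1) '' (p '' T ∩ (· * (a.2.1 * a.1.1⁻¹)) '' (q '' T)) := by
      rintro z ⟨⟨u, hu, k⟩, v, hv, l⟩
      obtain ⟨a, ha, ea⟩ := hE _ k
      obtain ⟨b, hb, eb⟩ := hE _ l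
      exact mem_iUnion.2 ⟨(⟨a, ha⟩, ⟨b, hb⟩), u, ⟨hu, v, hv, by
        simp only at ea eb ⊢; rw [← mul_assoc, ← eb, ea, mul_inv_cancel_right]⟩, ea.symm⟩
    rcases h0.eq_or_lt with hl | hl
    · -- the finitary case
      subst hl
      have : Finite A := by
        rw [← lt_aleph0_iff_finite]; exact hA
      exact Set.Finite.lt_aleph0 ((Set.finite_iUnion fun a => ((fin _).image _)).subset hsub)
    · refine lt_of_le_of_lt (mk_le_mk_of_subset hsub) ((mk_iUnion_le _).trans_lt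
        (mul_lt_of_lt h0 (by simpa using mul_lt_of_lt h0 hA hA)
          ((ciSup_le' fun a => ((fin _).image _).lt_aleph0.le).trans_lt hl)))
  have hW : #(U ∩ V : Set G) < l := by
    simpa [nb] using hUV {p | p.2 = p.1} ⟨{1}, by simpa using one_lt_aleph0.trans_le h0, rfl,
      by simp, fun _ h => ⟨1, rfl, by simpa using h⟩⟩
  obtain ⟨I, hI⟩ := le_mk_iff_exists_set.1 (h1.le.trans_eq (mk_ord_toType _).symm)
  have xi : Function.Injective fun a => x (e.symm a) := ix.comp e.symm.injective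
  have c0 : ∀ i, #{j | i ≠ j ∧ x (e.symm (i, j)) ∉ V} < l := fun i => lt_of_le_of_lt
    (mk_le_of_injective (f := fun j => ⟨x (e.symm (i, j)), ⟨_, ⟨e.symm (i, j),
      by simpa [T] using j.2.1, rfl⟩, by simp [q]⟩, j.2.2⟩)
      fun a b k => Subtype.ext (Prod.ext_iff.1 (xi (Subtype.ext_iff.1 k))).2)
    (asNhd_translate h0 hV (y i))
  have c1 : #(I ∪ (Prod.snd '' {a | x (e.symm a) ∈ U ∩ V} ∪
      ⋃ i : I, {j | i ≠ j ∧ x (e.symm (i, j)) ∉ V}) : Set _) < #G :=
    (mk_union_le _ _).trans_lt (add_lt_of_lt a0 (hI ▸ h1) ((mk_union_le _ _).trans_lt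
      (add_lt_of_lt a0 ((mk_image_le.trans (mk_preimage_of_injective _ _ xi)).trans_lt
        (hW.trans h1))
      ((mk_iUnion_le _).trans_lt (mul_lt_of_lt a0 (hI ▸ h1)
        ((ciSup_le' fun i : I => (c0 i).le).trans_lt h1))))))
  obtain ⟨j, hj⟩ := (ne_univ_iff_exists_notMem _).1 fun k =>
    c1.ne ((congrArg (fun s : Set _ => #s) k).trans (by simp))
  simp only [mem_union, mem_iUnion, not_or, not_exists, mem_ofPred_eq, not_and, not_not] at hj
  have d : ∀ i : I, i ≠ j := fun i k => hj.1 (k ▸ i.2)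
  refine (asNhd_translate h0 hU (y j)).not_ge (hI ▸ mk_le_of_injective
    (f := fun i => ⟨x (e.symm (i, j)), ⟨_, ⟨e.symm (i, j), by simpa [T] using d i, rfl⟩,
      by simp [p]⟩, fun k => hj.2.1 ⟨(i, j), ⟨k, hj.2.2 i (d i)⟩, rfl⟩⟩)
    fun a b k => Subtype.ext (Prod.ext_iff.1 (xi (Subtype.ext_iff.1 k))).1)

/-- a ballean with a suitable chain of entourages is normal -/
theorem normal_of_chain {l : Cardinal.{u}} {T : Type*} [LinearOrder T]
    (A : T → Set G) (σ : T → T) (hmono : Monotone A) (hσ : ∀ t, t ≤ σ t)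
    (hAA : ∀ t, ∀ a ∈ A t, ∀ b ∈ A t, a * b ∈ A (σ t)) (h1 : ∀ t, 1 ∈ A t)
    (hinv : ∀ t, ∀ a ∈ A t, a⁻¹ ∈ A t) (hcard : ∀ t, #(A t) < l)
    (hcof : ∀ S : Set G, #S < l → ∃ t, S ⊆ A t) : Normal G l := by
  intro P Q hPQ
  let N : Set G → T → Set G := fun P t => {x | ∃ u ∈ P, ∃ a ∈ A t, x = u * a}
  have Nmono : ∀ P s t, s ≤ t → N P s ⊆ N P t := by
    rintro P s t hst _ ⟨u, hu, a, ha, rfl⟩
    exact ⟨u, hu, a, hmono hst ha, rfl⟩
  have Nmul : ∀ P t x, x ∈ N P t → ∀ b ∈ A t, x * b ∈ N P (σ t) := by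
    rintro P t _ ⟨u, hu, a, ha, rfl⟩ b hb
    exact ⟨u, hu, a * b, hAA t a ha b hb, by rw [mul_assoc]⟩
  have bdd : ∀ t, #(N P t ∩ N Q t : Set G) < l := by
    intro t
    refine lt_of_le_of_lt (mk_le_mk_of_subset ?_)
      (hPQ {p | ∃ a ∈ A t, p.2 = p.1 * a} ⟨A t, hcard t, h1 t, ?_, fun _ h => h⟩)
    · rintro x ⟨⟨u, hu, a, ha, hx⟩, ⟨v, hv, b, hb, hx'⟩⟩
      exact ⟨⟨u, hu, a, ha, hx⟩, ⟨v, hv, b, hb, hx'⟩⟩
    · ext a
      rw [Set.mem_inv]
      exact ⟨fun h => by simpa using hinv t _ h, fun h => hinv t a h⟩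
  have nhd : ∀ P Q : Set G, (∀ t, #(N P t ∩ N Q t : Set G) < l) →
      AsNhd l {x | ∃ s, x ∈ N P s ∧ x ∉ N Q (σ s)} P := by
    rintro P Q hb E ⟨B, hB, -, -, hE⟩
    obtain ⟨t, ht⟩ := hcof B hB
    refine lt_of_le_of_lt (mk_le_mk_of_subset ?_) (hb (σ t))
    rintro x ⟨⟨u, hu, hux⟩, hx⟩
    obtain ⟨a, ha, hxa⟩ := hE _ hux
    have hxP : x ∈ N P t := ⟨u, hu, a, ht ha, hxa⟩
    refine ⟨Nmono P t (σ t) (hσ t) hxP, ?_⟩
    by_contra hn
    exact hx ⟨t, hxP, hn⟩
  refine ⟨{x | ∃ s, x ∈ N P s ∧ x ∉ N Q (σ s)}, {x | ∃ s, x ∈ N Q s ∧ x ∉ N P (σ s)},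
    nhd P Q bdd, nhd Q P (fun t => by rw [Set.inter_comm]; exact bdd t), ?_⟩
  rintro E ⟨B, hB, -, -, hE⟩
  obtain ⟨t, ht⟩ := hcof B hB
  refine lt_of_le_of_lt (mk_le_mk_of_subset ?_) (bdd (σ (σ t)))
  -- the key step, used twice
  have key : ∀ (P Q : Set G) (u v c : G) (s r : T), u ∈ N P s → v ∈ N Q r → v ∉ N P (σ r) →
      c ∈ A (σ t) → v = u * c → s ≤ r → u ∈ N P (σ t) ∧ v ∈ N Q (σ t) := by
    intro P Q u v c s r hu hv hnv hc hvc hsr
    have hr : r < σ t := by
      by_contra hcon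
      push Not at hcon
      apply hnv
      rw [hvc]
      exact Nmul P r u (Nmono P s r hsr hu) c (hmono hcon hc)
    exact ⟨Nmono P s _ (hsr.trans hr.le) hu, Nmono Q r _ hr.le hv⟩
  rintro z ⟨⟨u, ⟨s, hus, hun⟩, huz⟩, ⟨v, ⟨r, hvr, hvn⟩, hvz⟩⟩
  obtain ⟨a, ha, hza⟩ := hE _ huz
  obtain ⟨b, hb, hzb⟩ := hE _ hvz
  simp only at hza hzb
  have ha' := ht ha
  have hb' := ht hb
  have e1 : v = u * (a * b⁻¹) := by
    rw [← mul_assoc, ← hza, hzb, mul_inv_cancel_right]
  have e2 : u = v * (b * a⁻¹) := by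
    rw [← mul_assoc, ← hzb, hza, mul_inv_cancel_right]
  have c1 : a * b⁻¹ ∈ A (σ t) := hAA t a ha' _ (hinv t b hb')
  have c2 : b * a⁻¹ ∈ A (σ t) := hAA t b hb' _ (hinv t a ha')
  have main : u ∈ N P (σ t) ∧ v ∈ N Q (σ t) := by
    rcases le_total s r with hsr | hrs
    · exact key P Q u v _ s r hus hvr hvn c1 e1 hsr
    · exact (key Q P v u _ r s hvr hus hun c2 e2 hrs).symm
  refine ⟨?_, ?_⟩
  · rw [hza]
    exact Nmul P (σ t) u main.1 a (hmono (hσ t) ha')
  · rw [hzb]
    exact Nmul Q (σ t) v main.2 b (hmono (hσ t) hb')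

lemma mk_closure_lt {l : Cardinal.{u}} (hl : ℵ₀ < l) (S : Set G) (hS : #S < l) :
    #(Subgroup.closure S) < l := by
  have hsurj : Function.Surjective (fun w : FreeGroup (↥(insert 1 S)) =>
      (⟨FreeGroup.lift (Subtype.val : ↥(insert 1 S) → G) w, by
        have h := FreeGroup.range_lift_eq_closure (f := (Subtype.val : ↥(insert 1 S) → G))
        have h2 : FreeGroup.lift (Subtype.val : ↥(insert 1 S) → G) w ∈
            (FreeGroup.lift (Subtype.val : ↥(insert 1 S) → G)).range := ⟨w, rfl⟩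
        rw [h, Subtype.range_coe, Subgroup.closure_insert_one] at h2
        exact h2⟩ : Subgroup.closure S)) := by
    rintro ⟨g, hg⟩
    have h := FreeGroup.range_lift_eq_closure (f := (Subtype.val : ↥(insert 1 S) → G))
    rw [Subtype.range_coe, Subgroup.closure_insert_one] at h
    rw [← h] at hg
    obtain ⟨w, hw⟩ := hg
    exact ⟨w, Subtype.ext hw⟩
  refine (mk_le_of_surjective hsurj).trans_lt ?_
  rw [mk_freeGroup]
  exact max_lt (mk_insert_le.trans_lt (add_lt_of_lt hl.le hS (one_lt_aleph0.trans hl))) hl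

/-- if the cardinality of the group is regular, the ballean is normal -/
theorem normal_of_regular [Infinite G] (hreg : (#G).IsRegular) : Normal G (#G) := by
  have a0 := aleph0_le_mk G
  rcases a0.eq_or_lt with ha | ha
  · -- countable groups
    have hc : Countable G := by
      rw [← mk_le_aleph0_iff, ← ha]
    obtain ⟨g, hg⟩ := exists_surjective_nat G
    let A : ℕ → Set G := fun n => Nat.rec {1}
      (fun n S => {x | ∃ a ∈ S, ∃ b ∈ S, x = a * b} ∪ {g n, (g n)⁻¹}) n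
    have A0 : A 0 = {1} := rfl
    have As : ∀ n, A (n + 1) = {x | ∃ a ∈ A n, ∃ b ∈ A n, x = a * b} ∪ {g n, (g n)⁻¹} :=
      fun n => rfl
    have h1 : ∀ n, 1 ∈ A n := by
      intro n
      induction n with
      | zero => simp [A0]
      | succ n ih =>
        rw [As]
        exact Or.inl ⟨1, ih, 1, ih, by simp⟩
    have hAA : ∀ t, ∀ a ∈ A t, ∀ b ∈ A t, a * b ∈ A (t + 1) := by
      intro t a ha b hb
      rw [As]
      exact Or.inl ⟨a, ha, b, hb, rfl⟩
    have hinv : ∀ t, ∀ a ∈ A t, a⁻¹ ∈ A t := by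
      intro n
      induction n with
      | zero => intro a ha; simpa [A0] using ha
      | succ n ih =>
        intro x hx
        rw [As] at hx ⊢
        rcases hx with ⟨a, ha, b, hb, rfl⟩ | hx
        · exact Or.inl ⟨b⁻¹, ih b hb, a⁻¹, ih a ha, by simp⟩
        · right
          simp only [Set.mem_insert_iff, Set.mem_singleton_iff] at hx ⊢
          rcases hx with rfl | rfl
          · right; rfl
          · left; simp
    have hmono : Monotone A := by
      apply monotone_nat_of_le_succ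
      intro n x hx
      have := hAA n x hx 1 (h1 n)
      simpa using this
    have hfin : ∀ n, (A n).Finite := by
      intro n
      induction n with
      | zero => simp [A0]
      | succ n ih =>
        rw [As]
        refine Set.Finite.union ?_ (by simp)
        have : {x | ∃ a ∈ A n, ∃ b ∈ A n, x = a * b} ⊆ Set.image2 (· * ·) (A n) (A n) := by
          rintro x ⟨a, ha, b, hb, rfl⟩
          exact ⟨a, ha, b, hb, rfl⟩
        exact (Set.Finite.image2 _ ih ih).subset this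
    refine normal_of_chain A (fun t => t + 1) hmono (fun t => Nat.le_succ t) hAA h1 hinv
      (fun t => by rw [← ha]; exact (hfin t).lt_aleph0) ?_
    intro S hS
    rw [← ha, lt_aleph0_iff_set_finite] at hS
    choose k hk using hg
    obtain ⟨m, hm⟩ := (hS.image k).bddAbove
    refine ⟨m + 1, fun x hx => ?_⟩
    have h2 : k x ≤ m := hm ⟨x, hx, rfl⟩
    have h3 : x ∈ A (k x + 1) := by
      rw [As]
      right
      simp [hk x]
    exact hmono (Nat.succ_le_succ h2) h3
  · -- uncountable groups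
    obtain ⟨e⟩ : Nonempty ((#G).ord.ToType ≃ G) := Cardinal.eq.1 (by simp)
    have ii : ∀ t : (#G).ord.ToType, #(Iic t) < #G := fun t => by
      rw [← Iio_insert]
      exact mk_insert_le.trans_lt
        (add_lt_of_lt a0 (mk_Iio_toType_ord_lt t) (one_lt_aleph0.trans ha))
    refine normal_of_chain (T := (#G).ord.ToType)
      (fun t => (Subgroup.closure (e '' Iic t) : Set G)) id ?_ (fun t => le_rfl) ?_ ?_ ?_ ?_ ?_
    · intro s t hst
      exact Subgroup.closure_mono (Set.image_mono (Iic_subset_Iic.mpr hst))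
    · intro t a ha b hb
      exact mul_mem ha hb
    · intro t
      exact one_mem _
    · intro t a ha
      exact inv_mem ha
    · intro t
      exact mk_closure_lt ha _ (mk_image_le.trans_lt (ii t))
    · intro S hS
      have hnc : ¬ IsCofinal (e.symm '' S) := by
        intro hcof
        have h := Order.cof_le hcof
        rw [Ordinal.cof_toType, hreg.cof_ord] at h
        exact (mk_image_le.trans_lt hS).not_ge h
      unfold IsCofinal at hnc
      push Not at hnc
      obtain ⟨t, ht⟩ := hnc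
      refine ⟨t, fun x hx => Subgroup.subset_closure ⟨e.symm x, ?_, by simp⟩⟩
      exact (ht (e.symm x) ⟨x, hx, rfl⟩).le

/-- Let `G` be an infinite group and `l` an infinite cardinal with `l ≤ |G|`. The ballean of `G`
given by the ideal of the subsets of cardinality less than `l` is normal if and only if
`l = |G|` and `l` is regular. -/
theorem result (G : Type u) [Group G] [Infinite G] (l : Cardinal.{u}) (h0 : ℵ₀ ≤ l)
    (h1 : l ≤ #G) : Normal G l ↔ l = #G ∧ l.IsRegular := by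
  constructor
  · intro h
    have hl : l = #G := by
      by_contra hne
      exact not_normal_of_lt l h0 (lt_of_le_of_ne h1 hne) h
    subst hl
    exact ⟨rfl, Pool.Agent.Results.MP_08c285_gt.Regular.result G h⟩
  · rintro ⟨rfl, h⟩
    exact normal_of_regular h

end Pool.Agent.Results.MP_08c285_gt.AllCardinals
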